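import Pool.Agent.H47.SQ.Targets3
import Pool.Agent.H86.SQ.EXQ

/-!
# Search on random k-CNFs (MP_c62aed_lc), row XEP: the bad solutions of the planted formulas, fixed
order of the variables
-/

set_option autoImplicit false

namespace Pool.Agent.H11.PPZ

open Finset Pool.Agent.H97.RK Pool.Agent.H41.SS Pool.Agent.H47.SR Pool.Agent.H45.SQP
open Pool.Agent.H47.PL (Sat Os)
open Pool.Agent.H86.SQ (sum_dst' sat_iff')

open Classical in
theorem badB_le {n k m : ℕ} (F : Fml n k m) (t t₁ d u u₁ : ℕ) :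
    (badB F t t₁ d u u₁ : ℝ) ≤ ∑ τ : Fin n → Bool,
      ((∑ z ∈ univ.filter fun z : Fin n → Bool => Zb t t₁ u u₁ τ z,
        if Sat F τ ∧ ¬ GdB F t t₁ d u u₁ z then (1 : ℝ) else 0) +
      ∑ x ∈ univ.filter fun x : Fin n → Bool => dst x τ ≤ 1,
        if Sat F τ ∧ ¬ GdE F t t₁ u₁ x then (1 : ℝ) else 0) := by
  unfold badB
  rw [card_filter]
  push_cast
  refine Finset.sum_le_sum fun τ _ => ?_
  have hn1 : ∀ z ∈ univ.filter fun z : Fin n → Bool => Zb t t₁ u u₁ τ z,
      (0 : ℝ) ≤ if Sat F τ ∧ ¬ GdB F t t₁ d u u₁ z then (1 : ℝ) else 0 := by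
    intro z _
    split_ifs <;> norm_num
  have hn2 : ∀ x ∈ univ.filter fun x : Fin n → Bool => dst x τ ≤ 1,
      (0 : ℝ) ≤ if Sat F τ ∧ ¬ GdE F t t₁ u₁ x then (1 : ℝ) else 0 := by
    intro z _
    split_ifs <;> norm_num
  have hs1 := Finset.sum_nonneg hn1
  have hs2 := Finset.sum_nonneg hn2
  split_ifs with h
  · obtain ⟨h1, h2⟩ := h
    unfold BG at h2
    rcases not_and_or.1 h2 with h3 | h3
    · push Not at h3
      obtain ⟨z, hz1, hz2⟩ := h3
      have h4 := Finset.single_le_sum hn1 (mem_filter.2 ⟨mem_univ z, hz1⟩)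
      rw [if_pos ⟨h1, hz2⟩] at h4
      linarith
    · push Not at h3
      obtain ⟨x, hx1, hx2⟩ := h3
      have h4 := Finset.single_le_sum hn2 (mem_filter.2 ⟨mem_univ x, hx1⟩)
      rw [if_pos ⟨h1, hx2⟩] at h4
      linarith
  · linarith

open Classical in
theorem pf_XEP (hXPB : T_XPB) (hXPE : T_XPE) (hXZB : T_XZB)
    (hOSC : Pool.Agent.H47.PL.T_OSC) : T_XEP := by
  intro n k m t t₁ d u u₁ hk hkn hdn hun
  have hOm : ∀ σ τ : Fin n → Bool, Os n k σ ∩ Os n k τ ⊆ Om n k :=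
    fun σ τ => inter_subset_left.trans (filter_subset _ _)
  have h4k : 4 ≤ 2 ^ k := by
    have h1 : 2 ^ 2 ≤ 2 ^ k := Nat.pow_le_pow_right (by norm_num) hk
    omega
  have hOm2 : ∀ σ τ : Fin n → Bool, (Om n k).card ≤ 2 * (Os n k σ ∩ Os n k τ).card := by
    intro σ τ
    have h1 := (hOSC n k σ τ).2
    rw [card_Om]
    have h2 : 4 * n.descFactorial k ≤ 2 ^ k * n.descFactorial k := Nat.mul_le_mul_right _ h4k
    omega
  obtain ⟨P, hP⟩ : ∃ P : ℝ, P = prB n k m t t₁ d u u₁ := ⟨_, rfl⟩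
  obtain ⟨E, hE⟩ : ∃ E : ℝ, E = prE n k m t t₁ u₁ := ⟨_, rfl⟩
  obtain ⟨N, hN⟩ : ∃ N : ℕ, N = 2 ^ u * bl u₁ (4 * t + 1) * bl n (2 * t₁ + 1) := ⟨_, rfl⟩
  have hpT : pT n k m t t₁ d u u₁ = N * P + (n + 1) * E := by
    rw [hP, hE, hN]
    unfold pT
    push_cast
    ring
  rw [hpT]
  have hterm : ∀ (σ τ z : Fin n → Bool),
      (∑ F ∈ univ.filter fun F : Fml n k m => Dist F ∧ Sat F σ,
        if Sat F τ ∧ ¬ GdB F t t₁ d u u₁ z then (1 : ℝ) else 0) ≤
        P * ((Os n k σ ∩ Os n k τ).card : ℝ) ^ m := by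
    intro σ τ z
    have h1 := hXPB n k m t t₁ d u u₁ (Os n k σ ∩ Os n k τ) (by omega) hkn hdn
      (hOm σ τ) (hOm2 σ τ) z
    rw [← hP] at h1
    refine le_trans (le_of_eq ?_) h1
    rw [← Finset.sum_filter, Finset.sum_const, nsmul_eq_mul, mul_one, filter_filter]
    congr 2
    ext F
    simp only [mem_filter, mem_univ, true_and]
    rw [← sat_iff']
    tauto
  have htermE : ∀ (σ τ x : Fin n → Bool),
      (∑ F ∈ univ.filter fun F : Fml n k m => Dist F ∧ Sat F σ,
        if Sat F τ ∧ ¬ GdE F t t₁ u₁ x then (1 : ℝ) else 0) ≤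
        E * ((Os n k σ ∩ Os n k τ).card : ℝ) ^ m := by
    intro σ τ z
    have h1 := hXPE n k m t t₁ u₁ (Os n k σ ∩ Os n k τ) (by omega) hkn hun
      (hOm σ τ) (hOm2 σ τ) z
    rw [← hE] at h1
    refine le_trans (le_of_eq ?_) h1
    rw [← Finset.sum_filter, Finset.sum_const, nsmul_eq_mul, mul_one, filter_filter]
    congr 2
    ext F
    simp only [mem_filter, mem_univ, true_and]
    rw [← sat_iff']
    tauto
  have hPQ : ∀ σ τ : Fin n → Bool, 0 ≤ P * ((Os n k σ ∩ Os n k τ).card : ℝ) ^ m := by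
    intro σ τ
    refine le_trans ?_ (hterm σ τ fun _ => true)
    refine Finset.sum_nonneg fun F _ => ?_
    split_ifs <;> norm_num
  have hEQ : ∀ σ τ : Fin n → Bool, 0 ≤ E * ((Os n k σ ∩ Os n k τ).card : ℝ) ^ m := by
    intro σ τ
    refine le_trans ?_ (htermE σ τ fun _ => true)
    refine Finset.sum_nonneg fun F _ => ?_
    split_ifs <;> norm_num
  have hcN : ∀ τ : Fin n → Bool,
      (univ.filter fun z : Fin n → Bool => Zb t t₁ u u₁ τ z).card ≤ N := by
    intro τ
    have h1 := hXZB n t t₁ u u₁ τ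
    rw [Nat.card_eq_fintype_card, Fintype.card_subtype, ← hN] at h1
    exact h1
  have hcE : ∀ τ : Fin n → Bool,
      ((univ.filter fun x : Fin n → Bool => dst x τ ≤ 1).card : ℝ) ≤ n + 1 := by
    intro τ
    have h1 := card_dst n 1 τ
    have h2 : bl n 1 = n + 1 := by
      unfold bl
      rw [Finset.sum_range_succ, Finset.sum_range_one, Nat.choose_zero_right, Nat.choose_one_right]
      ring
    rw [h2] at h1
    exact_mod_cast h1
  have hpairs : (∑ p ∈ univ.filter fun p : Fml n k m × (Fin n → Bool) => Dist p.1 ∧ Sat p.1 p.2,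
      (badB p.1 t t₁ d u u₁ : ℝ)) =
      ∑ σ : Fin n → Bool, ∑ F ∈ univ.filter fun F : Fml n k m => Dist F ∧ Sat F σ,
        (badB F t t₁ d u u₁ : ℝ) := by
    rw [Finset.sum_filter, Fintype.sum_prod_type_right]
    refine Finset.sum_congr rfl fun σ _ => ?_
    rw [Finset.sum_filter]
  rw [hpairs]
  have hσ : ∀ σ : Fin n → Bool,
      ∑ F ∈ univ.filter fun F : Fml n k m => Dist F ∧ Sat F σ, (badB F t t₁ d u u₁ : ℝ) ≤
      (N * P + (n + 1) * E) * ∑ w ∈ range (n + 1), (n.choose w : ℝ) *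
        ((2 ^ k - 2) * (n.descFactorial k : ℝ) + ((n - w).descFactorial k : ℝ)) ^ m := by
    intro σ
    calc ∑ F ∈ univ.filter fun F : Fml n k m => Dist F ∧ Sat F σ, (badB F t t₁ d u u₁ : ℝ)
        ≤ ∑ F ∈ univ.filter fun F : Fml n k m => Dist F ∧ Sat F σ, ∑ τ : Fin n → Bool,
          ((∑ z ∈ univ.filter fun z : Fin n → Bool => Zb t t₁ u u₁ τ z,
            if Sat F τ ∧ ¬ GdB F t t₁ d u u₁ z then (1 : ℝ) else 0) +
          ∑ x ∈ univ.filter fun x : Fin n → Bool => dst x τ ≤ 1,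
            if Sat F τ ∧ ¬ GdE F t t₁ u₁ x then (1 : ℝ) else 0) :=
          Finset.sum_le_sum fun F _ => badB_le F t t₁ d u u₁
      _ = ∑ τ : Fin n → Bool,
          ((∑ z ∈ univ.filter fun z : Fin n → Bool => Zb t t₁ u u₁ τ z,
            ∑ F ∈ univ.filter fun F : Fml n k m => Dist F ∧ Sat F σ,
            if Sat F τ ∧ ¬ GdB F t t₁ d u u₁ z then (1 : ℝ) else 0) +
          ∑ x ∈ univ.filter fun x : Fin n → Bool => dst x τ ≤ 1,
            ∑ F ∈ univ.filter fun F : Fml n k m => Dist F ∧ Sat F σ,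
            if Sat F τ ∧ ¬ GdE F t t₁ u₁ x then (1 : ℝ) else 0) := by
          rw [Finset.sum_comm]
          refine Finset.sum_congr rfl fun τ _ => ?_
          rw [Finset.sum_add_distrib]
          congr 1
          · rw [Finset.sum_comm]
          · rw [Finset.sum_comm]
      _ ≤ ∑ τ : Fin n → Bool,
          ((∑ z ∈ univ.filter fun z : Fin n → Bool => Zb t t₁ u u₁ τ z,
            P * ((Os n k σ ∩ Os n k τ).card : ℝ) ^ m) +
          ∑ x ∈ univ.filter fun x : Fin n → Bool => dst x τ ≤ 1,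
            E * ((Os n k σ ∩ Os n k τ).card : ℝ) ^ m) :=
          Finset.sum_le_sum fun τ _ => add_le_add
            (Finset.sum_le_sum fun z _ => hterm σ τ z)
            (Finset.sum_le_sum fun x _ => htermE σ τ x)
      _ ≤ ∑ τ : Fin n → Bool, (N * (P * ((Os n k σ ∩ Os n k τ).card : ℝ) ^ m) +
          (n + 1) * (E * ((Os n k σ ∩ Os n k τ).card : ℝ) ^ m)) := by
          refine Finset.sum_le_sum fun τ _ => ?_
          rw [Finset.sum_const, nsmul_eq_mul, Finset.sum_const, nsmul_eq_mul]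
          refine add_le_add (mul_le_mul_of_nonneg_right ?_ (hPQ σ τ))
            (mul_le_mul_of_nonneg_right (hcE τ) (hEQ σ τ))
          exact_mod_cast hcN τ
      _ = (N * P + (n + 1) * E) *
          ∑ τ : Fin n → Bool, ((Os n k σ ∩ Os n k τ).card : ℝ) ^ m := by
          rw [Finset.mul_sum]
          refine Finset.sum_congr rfl fun τ _ => ?_
          ring
      _ = _ := by
          rw [← sum_dst' n σ fun w =>
            ((2 ^ k - 2) * (n.descFactorial k : ℝ) + ((n - w).descFactorial k : ℝ)) ^ m]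
          congr 1
          refine Finset.sum_congr rfl fun τ _ => ?_
          congr 1
          have h3 := (hOSC n k σ τ).2
          have h4 : ((Os n k σ ∩ Os n k τ).card : ℝ) + 2 * (n.descFactorial k : ℝ) =
              2 ^ k * (n.descFactorial k : ℝ) + ((n - dst σ τ).descFactorial k : ℝ) := by
            exact_mod_cast h3
          linarith
  refine (Finset.sum_le_sum fun σ _ => hσ σ).trans (le_of_eq ?_)
  rw [Finset.sum_const, card_univ, Fintype.card_fun, Fintype.card_bool, Fintype.card_fin,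
    nsmul_eq_mul]
  push_cast
  ring

end Pool.Agent.H11.PPZ
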